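import Mathlib

/-!
# Multiplicities, minimal primes and dimensions under automorphisms of rings
-/

set_option autoImplicit false
set_option linter.unusedSectionVars false

namespace Pool.Agent.Run7.h508.CY

section tr

variable {R : Type} [CommRing R]

/-- The ideal `𝔞` is the inverse image of an ideal of the localization at `𝔭`. -/
def Saturated (𝔭 𝔞 : Ideal R) : Prop := ∀ s x : R, s ∉ 𝔭 → s * x ∈ 𝔞 → x ∈ 𝔞

/-- There is a chain of length `m` of ideals of the localization at `𝔭` which contain `J`. -/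
def HasChain (J 𝔭 : Ideal R) (m : ℕ) : Prop :=
  ∃ c : Fin (m + 1) → Ideal R, StrictMono c ∧ ∀ i, J ≤ c i ∧ Saturated 𝔭 (c i)

/-- The multiplicity of the component `𝔭` of the scheme given by `J`: the length of the localization
of `R / J` at `𝔭`, that is the length of the longest chain of ideals. -/
noncomputable def mult (J 𝔭 : Ideal R) : ℕ := sSup {m | HasChain J 𝔭 m}

/-- the image of an ideal under an automorphism -/
def im (E : R ≃+* R) (𝔞 : Ideal R) : Ideal R := 𝔞.map (E : R →+* R)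

variable {E : R ≃+* R}

lemma mem_im {𝔞 : Ideal R} {x : R} : x ∈ im E 𝔞 ↔ E.symm x ∈ 𝔞 := by
  unfold im
  rw [Ideal.map_comap_of_equiv, Ideal.mem_comap]

lemma im_symm_im (𝔞 : Ideal R) : im E.symm (im E 𝔞) = 𝔞 := by
  ext x
  rw [mem_im, mem_im, RingEquiv.symm_symm, RingEquiv.symm_apply_apply]

lemma im_im_symm (𝔞 : Ideal R) : im E (im E.symm 𝔞) = 𝔞 := by
  ext x
  rw [mem_im, mem_im, RingEquiv.symm_symm, RingEquiv.apply_symm_apply]

lemma im_mono {𝔞 𝔟 : Ideal R} (h : 𝔞 ≤ 𝔟) : im E 𝔞 ≤ im E 𝔟 := by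
  intro x hx
  rw [mem_im] at hx ⊢
  exact h hx

lemma im_injective : Function.Injective (im E) := by
  intro a b hab
  rw [← im_symm_im (E := E) a, hab, im_symm_im]

lemma im_strictMono : StrictMono (im E) :=
  Monotone.strictMono_of_injective (fun _ _ h => im_mono h) im_injective

lemma sat_im {𝔭 𝔞 : Ideal R} (h : Saturated 𝔭 𝔞) : Saturated (im E 𝔭) (im E 𝔞) := by
  intro s x hs hx
  rw [mem_im] at hs hx ⊢
  rw [map_mul] at hx
  exact h _ _ hs hx

lemma chain_im {J 𝔭 : Ideal R} {m : ℕ} (h : HasChain J 𝔭 m) :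
    HasChain (im E J) (im E 𝔭) m := by
  obtain ⟨c, hc, h1⟩ := h
  exact ⟨fun i => im E (c i), im_strictMono.comp hc, fun i => ⟨im_mono (h1 i).1, sat_im (h1 i).2⟩⟩

lemma mult_im (J 𝔭 : Ideal R) : mult (im E J) (im E 𝔭) = mult J 𝔭 := by
  unfold mult
  congr 1
  ext m
  constructor
  · intro h
    have h1 := chain_im (E := E.symm) h
    rwa [im_symm_im, im_symm_im] at h1
  · exact fun h => chain_im h

lemma prime_im {𝔭 : Ideal R} (h : 𝔭.IsPrime) : (im E 𝔭).IsPrime := by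
  unfold im
  rw [Ideal.map_comap_of_equiv]
  exact Ideal.IsPrime.comap _

lemma minimal_im {J 𝔭 : Ideal R} (h : 𝔭 ∈ J.minimalPrimes) : im E 𝔭 ∈ (im E J).minimalPrimes := by
  obtain ⟨⟨h1, h2⟩, h3⟩ := h
  refine ⟨⟨prime_im h1, im_mono h2⟩, fun 𝔮 hq hle => ?_⟩
  have h4 : im E.symm 𝔮 ≤ 𝔭 := by
    have h5 := im_mono (E := E.symm) hle
    rwa [im_symm_im] at h5
  have h6 : J ≤ im E.symm 𝔮 := by
    have h5 := im_mono (E := E.symm) hq.2
    rwa [im_symm_im] at h5
  have h7 := h3 ⟨prime_im hq.1, h6⟩ h4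
  have h8 := im_mono (E := E) h7
  rwa [im_im_symm] at h8

lemma dim_im (𝔞 : Ideal R) : ringKrullDim (R ⧸ im E 𝔞) = ringKrullDim (R ⧸ 𝔞) :=
  (ringKrullDim_eq_of_ringEquiv (Ideal.quotientEquiv 𝔞 (im E 𝔞) E rfl)).symm

end tr

end Pool.Agent.Run7.h508.CY
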