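import Mathlib
import Pool.Agent.Run7.h508.CY.Tr
import Pool.Agent.Run7.h508.BR.GT

/-!
# Cycles of any dimension on a quasi-projective variety over an algebraic closure, modulo rational
equivalence, and the action of the Galois group
-/

set_option autoImplicit false
set_option linter.unusedSectionVars false

namespace Pool.Agent.Run7.h508.CY

open Pool.Agent.Run7.h508.BR

/-- the polynomials in `n + 1` variables -/
abbrev Crd (A : Type) [CommRing A] (n : ℕ) : Type := MvPolynomial (Fin (n + 1)) A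

/-- homogeneous ideals -/
def IsHomog {A : Type} [CommRing A] {n : ℕ} (𝔞 : Ideal (Crd A n)) : Prop :=
  ∀ F ∈ 𝔞, ∀ d : ℕ, MvPolynomial.homogeneousComponent d F ∈ 𝔞

section defs

variable {k : Type} [Field k] {Ω : Type} [Field Ω] [Algebra k Ω] {n : ℕ}
  (I J : Set (Crd k n))

/-- The closed set of the prime ideal `𝔭` is contained in the zero set of `I`, and not in the zero set
of `J`: `𝔭` gives a closed subset of the quasi-projective variety `V` (`F = 0` for all `F ∈ I`, and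
not `G = 0` for all `G ∈ J`). -/
def OnV (𝔭 : Ideal (Crd Ω n)) : Prop :=
  (∀ F ∈ I, MvPolynomial.map (algebraMap k Ω) F ∈ 𝔭) ∧
    ∃ G ∈ J, MvPolynomial.map (algebraMap k Ω) G ∉ 𝔭

/-- The prime ideal `𝔭` gives a subvariety of dimension `r` of `V` over `Ω`. -/
def IsSubvariety (r : ℕ) (𝔭 : Ideal (Crd Ω n)) : Prop :=
  𝔭.IsPrime ∧ IsHomog 𝔭 ∧ OnV I J 𝔭 ∧ ringKrullDim (Crd Ω n ⧸ 𝔭) = ((r + 1 : ℕ) : WithBot ℕ∞)

/-- The prime ideal `Q` gives a subvariety of dimension `r + 1` of `X × 𝔸¹`, `X` the zero set of `I`,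
which dominates the affine line. -/
def IsFamily (r : ℕ) (Q : Ideal (Crd (Polynomial Ω) n)) : Prop :=
  Q.IsPrime ∧ IsHomog Q ∧
    (∀ F ∈ I, MvPolynomial.map (Polynomial.C.comp (algebraMap k Ω)) F ∈ Q) ∧
    (∀ q : Polynomial Ω, MvPolynomial.C q ∈ Q → q = 0) ∧
    ringKrullDim (Crd (Polynomial Ω) n ⧸ Q) = ((r + 2 : ℕ) : WithBot ℕ∞)

/-- the ideal of the fibre over the point `a` -/
noncomputable def fibre (Q : Ideal (Crd (Polynomial Ω) n)) (a : Ω) : Ideal (Crd Ω n) :=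
  Q.map (MvPolynomial.map (Polynomial.evalRingHom a))

/-- the cycle on `V` of the closed subscheme with the ideal `𝔞`: the sum of its components, with
their multiplicities -/
noncomputable def cycle (𝔞 : Ideal (Crd Ω n)) : Ideal (Crd Ω n) →₀ ℚ :=
  ∑ᶠ 𝔭 : {𝔭 : Ideal (Crd Ω n) // 𝔭 ∈ 𝔞.minimalPrimes ∧ OnV I J 𝔭},
    Finsupp.single 𝔭.1 (mult 𝔞 𝔭.1 : ℚ)

variable (Ω) in
/-- the cycles of dimension `r` which are rationally equivalent to zero -/
noncomputable def rat (r : ℕ) : Submodule ℚ (Ideal (Crd Ω n) →₀ ℚ) := Submodule.span ℚ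
  {z | ∃ (Q : Ideal (Crd (Polynomial Ω) n)) (a b : Ω), IsFamily I r Q ∧
    z = cycle I J (fibre Q a) - cycle I J (fibre Q b)}

variable (Ω) in
/-- the formal sums of ideals modulo the cycles of dimension `r` rationally equivalent to zero -/
abbrev Quo (r : ℕ) : Type := (Ideal (Crd Ω n) →₀ ℚ) ⧸ rat Ω I J r

variable (Ω) in
/-- `CH_r(V_Ω)_ℚ`: the classes of the cycles of dimension `r` -/
noncomputable def CH (r : ℕ) : Submodule ℚ (Quo Ω I J r) :=
  (Submodule.span ℚ {z | ∃ 𝔭 : Ideal (Crd Ω n), IsSubvariety I J r 𝔭 ∧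
    z = Finsupp.single 𝔭 1}).map (rat Ω I J r).mkQ

end defs

section act

lemma hc_map {A B : Type} [CommRing A] [CommRing B] {n : ℕ} (f : A →+* B) (F : Crd A n) (d : ℕ) :
    MvPolynomial.homogeneousComponent d (MvPolynomial.map f F) =
      MvPolynomial.map f (MvPolynomial.homogeneousComponent d F) := by
  ext m
  rw [MvPolynomial.coeff_homogeneousComponent, MvPolynomial.coeff_map, MvPolynomial.coeff_map,
    MvPolynomial.coeff_homogeneousComponent]
  split_ifs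
  · rfl
  · rw [map_zero]

/-- the automorphism of the polynomial ring -/
noncomputable def EM {A : Type} [CommRing A] (n : ℕ) (e : A ≃+* A) : Crd A n ≃+* Crd A n :=
  MvPolynomial.mapEquiv (Fin (n + 1)) e

lemma EM_apply {A : Type} [CommRing A] {n : ℕ} (e : A ≃+* A) (F : Crd A n) :
    EM n e F = MvPolynomial.map (e : A →+* A) F := rfl

lemma EM_symm_apply {A : Type} [CommRing A] {n : ℕ} (e : A ≃+* A) (F : Crd A n) :
    (EM n e).symm F = MvPolynomial.map (e.symm : A →+* A) F := rfl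

lemma homog_im {A : Type} [CommRing A] {n : ℕ} (e : A ≃+* A) {𝔞 : Ideal (Crd A n)}
    (h : IsHomog 𝔞) : IsHomog (im (EM n e) 𝔞) := by
  intro F hF d
  rw [mem_im, EM_symm_apply] at hF ⊢
  rw [← hc_map]
  exact h _ hF d

variable {k : Type} [Field k] {Ω : Type} [Field Ω] [Algebra k Ω] {n : ℕ}
  (I J : Set (Crd k n)) (σ : Ω ≃ₐ[k] Ω)

/-- the action on ideals -/
noncomputable def aE : Crd Ω n ≃+* Crd Ω n := EM n (σ : Ω ≃+* Ω)

/-- the action on the ideals of families -/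
noncomputable def aT : Crd (Polynomial Ω) n ≃+* Crd (Polynomial Ω) n :=
  EM n (Polynomial.mapEquiv (σ : Ω ≃+* Ω))

lemma aE_k (F : Crd k n) : (aE σ).symm (MvPolynomial.map (algebraMap k Ω) F) =
    MvPolynomial.map (algebraMap k Ω) F := by
  rw [aE, EM_symm_apply, MvPolynomial.map_map]
  have h : (((σ : Ω ≃+* Ω).symm : Ω ≃+* Ω) : Ω →+* Ω).comp (algebraMap k Ω) = algebraMap k Ω :=
    RingHom.ext fun c => σ.symm.commutes c
  exact congrArg (fun f : k →+* Ω => MvPolynomial.map f F) h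

lemma aT_k (F : Crd k n) :
    (aT σ).symm (MvPolynomial.map (Polynomial.C.comp (algebraMap k Ω)) F) =
      MvPolynomial.map (Polynomial.C.comp (algebraMap k Ω)) F := by
  rw [aT, EM_symm_apply, MvPolynomial.map_map]
  have h : (((Polynomial.mapEquiv (σ : Ω ≃+* Ω)).symm : Polynomial Ω ≃+* Polynomial Ω) :
      Polynomial Ω →+* Polynomial Ω).comp (Polynomial.C.comp (algebraMap k Ω)) =
      Polynomial.C.comp (algebraMap k Ω) := by
    refine RingHom.ext fun c => ?_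
    change Polynomial.map _ (Polynomial.C (algebraMap k Ω c)) = Polynomial.C (algebraMap k Ω c)
    rw [Polynomial.map_C]
    exact congrArg Polynomial.C (σ.symm.commutes c)
  exact congrArg (fun f : k →+* Polynomial Ω => MvPolynomial.map f F) h

variable {I J}

lemma onV_im {𝔭 : Ideal (Crd Ω n)} (h : OnV I J 𝔭) : OnV I J (im (aE σ) 𝔭) := by
  obtain ⟨h1, G, hG, h2⟩ := h
  refine ⟨fun F hF => ?_, G, hG, ?_⟩
  · rw [mem_im, aE_k]
    exact h1 F hF
  · rw [mem_im, aE_k]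
    exact h2

lemma subvariety_im {r : ℕ} {𝔭 : Ideal (Crd Ω n)} (h : IsSubvariety I J r 𝔭) :
    IsSubvariety I J r (im (aE σ) 𝔭) :=
  ⟨prime_im h.1, homog_im _ h.2.1, onV_im σ h.2.2.1, by rw [dim_im]; exact h.2.2.2⟩

lemma family_im {r : ℕ} {Q : Ideal (Crd (Polynomial Ω) n)} (h : IsFamily I r Q) :
    IsFamily I r (im (aT σ) Q) := by
  refine ⟨prime_im h.1, homog_im _ h.2.1, fun F hF => ?_, fun q hq => ?_, by
    rw [dim_im]; exact h.2.2.2.2⟩
  · rw [mem_im, aT_k]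
    exact h.2.2.1 F hF
  · rw [mem_im, aT, EM_symm_apply, MvPolynomial.map_C] at hq
    have h1 := h.2.2.2.1 _ hq
    have h2 : (Polynomial.mapEquiv (σ : Ω ≃+* Ω)).symm q = 0 := h1
    rwa [map_eq_zero_iff _ (RingEquiv.injective _)] at h2

lemma fibre_im (Q : Ideal (Crd (Polynomial Ω) n)) (a : Ω) :
    fibre (im (aT σ) Q) (σ a) = im (aE σ) (fibre Q a) := by
  unfold fibre im
  rw [Ideal.map_map, Ideal.map_map]
  congr 1
  refine MvPolynomial.ringHom_ext (fun q => ?_) (fun i => ?_)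
  · change MvPolynomial.map _ (MvPolynomial.map _ (MvPolynomial.C q)) =
      MvPolynomial.map _ (MvPolynomial.map _ (MvPolynomial.C q))
    rw [MvPolynomial.map_C, MvPolynomial.map_C, MvPolynomial.map_C, MvPolynomial.map_C]
    congr 1
    change Polynomial.eval (σ a) (Polynomial.map _ q) = σ (Polynomial.eval a q)
    exact Polynomial.eval_map_apply (f := (σ : Ω →+* Ω)) a
  · change MvPolynomial.map _ (MvPolynomial.map _ (MvPolynomial.X i)) =
      MvPolynomial.map _ (MvPolynomial.map _ (MvPolynomial.X i))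
    rw [MvPolynomial.map_X, MvPolynomial.map_X, MvPolynomial.map_X, MvPolynomial.map_X]

lemma aE_symm_symm : (aE (n := n) σ.symm) = (aE σ).symm := rfl

/-- the components of the conjugate -/
noncomputable def compEquiv (𝔞 : Ideal (Crd Ω n)) :
    {𝔭 : Ideal (Crd Ω n) // 𝔭 ∈ 𝔞.minimalPrimes ∧ OnV I J 𝔭} ≃
      {𝔭 : Ideal (Crd Ω n) // 𝔭 ∈ (im (aE σ) 𝔞).minimalPrimes ∧ OnV I J 𝔭} where
  toFun := fun 𝔭 => ⟨im (aE σ) 𝔭.1, minimal_im 𝔭.2.1, onV_im σ 𝔭.2.2⟩
  invFun := fun 𝔭 => ⟨im (aE σ).symm 𝔭.1, by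
    have h1 := minimal_im (E := (aE σ).symm) 𝔭.2.1
    rwa [im_symm_im] at h1, by
    rw [← aE_symm_symm]
    exact onV_im σ.symm 𝔭.2.2⟩
  left_inv := fun 𝔭 => Subtype.ext (im_symm_im _)
  right_inv := fun 𝔭 => Subtype.ext (im_im_symm _)

/-- the action on formal sums of ideals -/
noncomputable def cact : (Ideal (Crd Ω n) →₀ ℚ) →ₗ[ℚ] (Ideal (Crd Ω n) →₀ ℚ) :=
  Finsupp.lmapDomain ℚ ℚ (im (aE σ))

lemma cact_single (𝔭 : Ideal (Crd Ω n)) (c : ℚ) :
    cact σ (Finsupp.single 𝔭 c) = Finsupp.single (im (aE σ) 𝔭) c := by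
  rw [cact, Finsupp.lmapDomain_apply, Finsupp.mapDomain_single]

lemma cact_injective : Function.Injective (cact (n := n) σ) :=
  Finsupp.mapDomain_injective im_injective

lemma cact_cycle (𝔞 : Ideal (Crd Ω n)) : cact σ (cycle I J 𝔞) = cycle I J (im (aE σ) 𝔞) := by
  have h1 : cact σ (cycle I J 𝔞) =
      ∑ᶠ 𝔭 : {𝔭 : Ideal (Crd Ω n) // 𝔭 ∈ 𝔞.minimalPrimes ∧ OnV I J 𝔭},
        cact σ (Finsupp.single 𝔭.1 (mult 𝔞 𝔭.1 : ℚ)) :=
    AddMonoidHom.map_finsum_of_injective (cact σ).toAddMonoidHom (cact_injective σ) _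
  rw [h1, cycle, ← finsum_comp_equiv (compEquiv σ 𝔞)]
  refine finsum_congr fun 𝔭 => ?_
  rw [cact_single]
  change _ = Finsupp.single (im (aE σ) 𝔭.1) (mult (im (aE σ) 𝔞) (im (aE σ) 𝔭.1) : ℚ)
  rw [mult_im]

lemma rat_stable (r : ℕ) : rat Ω I J r ≤ (rat Ω I J r).comap (cact σ) := by
  unfold rat
  rw [Submodule.span_le]
  rintro _ ⟨Q, a, b, hQ, rfl⟩
  refine Submodule.subset_span ⟨im (aT σ) Q, σ a, σ b, family_im σ hQ, ?_⟩
  rw [fibre_im, fibre_im, _root_.map_sub, cact_cycle, cact_cycle]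

end act

section rep

variable {k : Type} [Field k] {Ω : Type} [Field Ω] [Algebra k Ω] {n : ℕ}
  (I J : Set (Crd k n)) (r : ℕ)

lemma im_one (𝔭 : Ideal (Crd Ω n)) : im (aE (1 : Ω ≃ₐ[k] Ω)) 𝔭 = 𝔭 := by
  ext x
  rw [mem_im, aE, EM_symm_apply]
  have h : (((1 : Ω ≃ₐ[k] Ω) : Ω ≃+* Ω).symm : Ω →+* Ω) = RingHom.id Ω := rfl
  rw [h, MvPolynomial.map_id]

lemma im_mul (σ τ : Ω ≃ₐ[k] Ω) (𝔭 : Ideal (Crd Ω n)) :
    im (aE (σ * τ)) 𝔭 = im (aE σ) (im (aE τ) 𝔭) := by
  ext x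
  rw [mem_im, mem_im, mem_im, aE, aE, aE, EM_symm_apply, EM_symm_apply, EM_symm_apply,
    MvPolynomial.map_map]
  rfl

/-- the representation of the automorphisms of `Ω` over `k` -/
noncomputable def chRep : Representation ℚ (Ω ≃ₐ[k] Ω) (Quo Ω I J r) where
  toFun := fun σ => Submodule.mapQ _ _ (cact σ) (rat_stable σ r)
  map_one' := by
    refine LinearMap.ext fun c => ?_
    obtain ⟨z, rfl⟩ := Submodule.Quotient.mk_surjective _ c
    rw [Submodule.mapQ_apply]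
    have h : im (aE (1 : Ω ≃ₐ[k] Ω)) = (id : Ideal (Crd Ω n) → Ideal (Crd Ω n)) :=
      funext im_one
    rw [cact, Finsupp.lmapDomain_apply, h, Finsupp.mapDomain_id]
    rfl
  map_mul' := fun σ τ => by
    refine LinearMap.ext fun c => ?_
    obtain ⟨z, rfl⟩ := Submodule.Quotient.mk_surjective _ c
    rw [Submodule.mapQ_apply]
    have h : im (aE (σ * τ)) = (im (aE σ) ∘ im (aE τ) : Ideal (Crd Ω n) → Ideal (Crd Ω n)) :=
      funext (im_mul σ τ)
    rw [cact, Finsupp.lmapDomain_apply, h, Finsupp.mapDomain_comp]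
    rfl

lemma chRep_mk (σ : Ω ≃ₐ[k] Ω) (z : Ideal (Crd Ω n) →₀ ℚ) :
    chRep I J r σ (Submodule.Quotient.mk z) = Submodule.Quotient.mk (cact σ z) := rfl

lemma CH_stable (σ : Ω ≃ₐ[k] Ω) (v : Quo Ω I J r) (hv : v ∈ CH Ω I J r) :
    chRep I J r σ v ∈ CH Ω I J r := by
  obtain ⟨z, hz, rfl⟩ := hv
  refine ⟨cact σ z, ?_, rfl⟩
  have h1 : Submodule.span ℚ {z | ∃ 𝔭 : Ideal (Crd Ω n), IsSubvariety I J r 𝔭 ∧
      z = Finsupp.single 𝔭 1} ≤ (Submodule.span ℚ {z | ∃ 𝔭 : Ideal (Crd Ω n),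
        IsSubvariety I J r 𝔭 ∧ z = Finsupp.single 𝔭 1}).comap (cact σ) := by
    rw [Submodule.span_le]
    rintro _ ⟨𝔭, hp, rfl⟩
    refine Submodule.subset_span ⟨im (aE σ) 𝔭, subvariety_im σ hp, ?_⟩
    rw [cact_single]
  exact h1 hz

end rep

section disc

open NumberField

variable {k : Type} [Field k] [NumberField k] {Ω : Type} [Field Ω] [Algebra k Ω]
  [Algebra.IsAlgebraic k Ω] {n : ℕ}

/-- a cycle is defined over a number field -/
lemma exists_numberField (z : Ideal (Crd Ω n) →₀ ℚ) : ∃ (K : Type) (_ : Field K)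
    (_ : NumberField K) (_ : Algebra k K) (j : K →ₐ[k] Ω), ∀ σ : Ω ≃ₐ[k] Ω,
      (∀ x : K, σ (j x) = j x) → cact σ z = z := by
  classical
  have hfg : ∀ 𝔭 : Ideal (Crd Ω n), ∃ S : Finset (Crd Ω n), Ideal.span (S : Set (Crd Ω n)) = 𝔭 :=
    fun 𝔭 => IsNoetherian.noetherian 𝔭
  choose g hg using hfg
  let S : Finset Ω := z.support.biUnion fun 𝔭 => (g 𝔭).biUnion fun F =>
    F.support.image fun m => MvPolynomial.coeff m F
  let E := IntermediateField.adjoin k (S : Set Ω)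
  have hfin : FiniteDimensional k E := IntermediateField.finiteDimensional_adjoin fun x _ =>
    Algebra.IsIntegral.isIntegral x
  have hN : NumberField E := NumberField.of_module_finite k E
  refine ⟨E, inferInstance, hN, inferInstance, E.val, fun σ hσ => ?_⟩
  have h1 : ∀ 𝔭 ∈ z.support, im (aE σ) 𝔭 = 𝔭 := by
    intro 𝔭 hp
    have h2 : ∀ F ∈ g 𝔭, aE σ F = F := by
      intro F hF
      rw [aE, EM_apply]
      ext m
      rw [MvPolynomial.coeff_map]
      by_cases hm : m ∈ F.support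
      · have h3 : MvPolynomial.coeff m F ∈ E := by
          apply IntermediateField.subset_adjoin
          exact Finset.mem_coe.mpr (Finset.mem_biUnion.mpr ⟨𝔭, hp,
            Finset.mem_biUnion.mpr ⟨F, hF, Finset.mem_image.mpr ⟨m, hm, rfl⟩⟩⟩)
        exact hσ ⟨_, h3⟩
      · rw [MvPolynomial.notMem_support_iff] at hm
        rw [hm, map_zero]
    unfold im
    conv_lhs => rw [← hg 𝔭, Ideal.map_span]
    conv_rhs => rw [← hg 𝔭]
    congr 1
    ext F
    constructor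
    · rintro ⟨G, hG, rfl⟩
      have h3 := h2 G hG
      change aE σ G ∈ _
      rw [h3]
      exact hG
    · intro hF
      exact ⟨F, hF, h2 F hF⟩
  rw [cact, Finsupp.lmapDomain_apply]
  refine (Finsupp.mapDomain_congr (g := id) fun 𝔭 hp => h1 𝔭 hp).trans ?_
  exact Finsupp.mapDomain_id

lemma chRep_disc (I J : Set (Crd k n)) (r : ℕ) (v : Quo Ω I J r) : ∃ (K : Type) (_ : Field K)
    (_ : NumberField K) (_ : Algebra k K) (j : K →ₐ[k] Ω), Fixed (chRep I J r) j v := by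
  obtain ⟨z, rfl⟩ := Submodule.Quotient.mk_surjective _ v
  obtain ⟨K, i1, i2, i3, j, hj⟩ := exists_numberField (k := k) z
  refine ⟨K, i1, i2, i3, j, fun σ hσ => ?_⟩
  rw [chRep_mk, hj σ hσ]

end disc

end Pool.Agent.Run7.h508.CY
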